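import Pool.Agent.Helper7.UnivAlgD

namespace Pool.Agent.Results.MP_4977d9_al.NoUniversal

universe u v

open Polynomial Pool.Agent.Helper7.UnivAlg

/-- An associative, not necessarily unital, `F`-algebra `A` is algebraic if the (nonunital)
subalgebra generated by each element is finite-dimensional over `F`. -/
def AlgebraicAlg (F : Type u) [Field F] (A : Type v) [NonUnitalRing A] [Module F A]
    [IsScalarTower F A A] [SMulCommClass F A A] : Prop :=
  ∀ a : A, Module.Finite F (NonUnitalAlgebra.adjoin F ({a} : Set A))

lemma countable_of_rank (F : Type u) [Field F] [Countable F] (U : Type v) [AddCommGroup U]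
    [Module F U] (h : Module.rank F U ≤ Cardinal.aleph0) : Countable U := by
  let b := Module.Basis.ofVectorSpace F U
  have h1 : Countable (Module.Basis.ofVectorSpaceIndex F U) := by
    rw [← Cardinal.mk_le_aleph0_iff, b.mk_eq_rank'']
    exact h
  exact b.repr.toEquiv.injective.countable

lemma exists_poly (F : Type u) [Field F] (U : Type v) [NonUnitalRing U] [Module F U]
    [IsScalarTower F U U] [SMulCommClass F U U] (hU : AlgebraicAlg F U) (y : U) :
    ∃ f : F[X], f ≠ 0 ∧ aeval (y : Unitization F U) f = 0 := by
  have := hU y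
  -- the image of the subalgebra generated by `y`
  let B := NonUnitalAlgebra.adjoin F ({y} : Set U)
  have hpow : ∀ n : ℕ, ∃ b ∈ B, (y : Unitization F U) ^ (n + 1) = (b : Unitization F U) := by
    intro n
    induction n with
    | zero => exact ⟨y, NonUnitalAlgebra.subset_adjoin F rfl, by simp⟩
    | succ n ih =>
      obtain ⟨b, hb, hb'⟩ := ih
      refine ⟨b * y, B.mul_mem hb (NonUnitalAlgebra.subset_adjoin F rfl), ?_⟩
      rw [pow_succ, hb', Unitization.inr_mul]
  choose b hb hb' using hpow
  have hdep : ¬ LinearIndependent F (fun n : ℕ => (⟨b n, hb n⟩ : B)) := by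
    intro hli
    have h1 : Module.Finite F B := this
    have := hli.finite
    exact not_finite ℕ
  rw [linearIndependent_iff] at hdep
  push Not at hdep
  obtain ⟨l, hl, hl0⟩ := hdep
  refine ⟨∑ n ∈ l.support, monomial (n + 1) (l n), ?_, ?_⟩
  · intro hcon
    apply hl0
    ext m
    have h2 := congrArg (fun q => coeff q (m + 1)) hcon
    simp only [finsetSum_coeff, coeff_monomial, coeff_zero] at h2
    by_cases hm : m ∈ l.support
    · rw [Finset.sum_eq_single m] at h2
      · simpa using h2
      · intro n _ hn
        rw [if_neg (by omega)]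
      · intro h; exact absurd hm h
    · simpa using hm
  · rw [map_sum]
    have h3 : ∀ n ∈ l.support, aeval (y : Unitization F U) (monomial (n + 1) (l n)) =
        ((l n • b n : U) : Unitization F U) := by
      intro n _
      rw [aeval_monomial, hb', ← Algebra.smul_def, Unitization.inr_smul]
    rw [Finset.sum_congr rfl h3]
    have h4 := congrArg (fun q : B => ((q : U) : Unitization F U)) hl
    simp only [Finsupp.linearCombination_apply, Finsupp.sum] at h4
    rw [AddSubmonoidClass.coe_finsetSum] at h4
    have h5 := map_sum (Unitization.inrHom F F U) (fun n => l n • b n) l.support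
    simp only [Unitization.inrHom_apply] at h5
    rw [← h5]
    exact h4

lemma exists_inr_prod (F : Type u) [Field F] (U : Type v) [NonUnitalRing U] [Module F U]
    [IsScalarTower F U U] [SMulCommClass F U U] (τ : Fin 6 → U) (h : Wd) (hh : h ≠ []) :
    ∃ y : U, (h.map (fun x => (τ x : Unitization F U))).prod = (y : Unitization F U) := by
  induction h with
  | nil => exact absurd rfl hh
  | cons x h ih =>
    by_cases h0 : h = []
    · subst h0
      exact ⟨τ x, by simp⟩
    · obtain ⟨y, hy⟩ := ih h0
      refine ⟨τ x * y, ?_⟩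
      rw [List.map_cons, List.prod_cons, hy, Unitization.inr_mul]

lemma algebraicAlg_of_isAlgebraic (F : Type u) [Field F] (A : Type v) [Ring A] [Algebra F A]
    (h : ∀ a : A, IsAlgebraic F a) : AlgebraicAlg F A := by
  intro a
  have h1 : Module.Finite F (Algebra.adjoin F ({a} : Set A)) := by
    have := (h a).isIntegral.fg_adjoin_singleton
    exact Module.Finite.iff_fg.2 this
  have h2 : NonUnitalAlgebra.adjoin F ({a} : Set A) ≤
      (Algebra.adjoin F ({a} : Set A)).toNonUnitalSubalgebra := by
    rw [NonUnitalAlgebra.adjoin_le_iff]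
    exact Algebra.subset_adjoin
  let f : NonUnitalAlgebra.adjoin F ({a} : Set A) →ₗ[F] Algebra.adjoin F ({a} : Set A) :=
    { toFun := fun x => ⟨x.1, h2 x.2⟩
      map_add' := fun _ _ => rfl
      map_smul' := fun _ _ => rfl }
  refine Module.Finite.of_injective f ?_
  intro x y hxy
  apply Subtype.ext
  have h3 := congrArg Subtype.val hxy
  exact h3

/-- For every countable field `F` and every algebraic `F`-algebra `U` of countable dimension
there is an algebraic algebra of countable dimension which is not a homomorphic image
of `U`. -/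
theorem not_image (F : Type u) [Field F] [Countable F]
    (U : Type v) [NonUnitalRing U] [Module F U] [IsScalarTower F U U] [SMulCommClass F U U]
    (hU : AlgebraicAlg F U) (hrank : Module.rank F U ≤ Cardinal.aleph0) :
    ∃ (A : Type u) (_ : Ring A) (_ : Algebra F A), AlgebraicAlg F A ∧
      Module.rank F A ≤ Cardinal.aleph0 ∧ ¬ ∃ φ : U →ₙₐ[F] A, Function.Surjective φ := by
  have hcU : Countable U := countable_of_rank F U hrank
  have : Nonempty (Fin 6 → U) := ⟨fun _ => 0⟩
  obtain ⟨τ, hτ⟩ := exists_surjective_nat (Fin 6 → U)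
  have hpoly : ∀ (k : ℕ) (h : Wd), h ≠ [] → ∃ f : F[X], f ≠ 0 ∧
      aeval (h.map (fun x => (τ k x : Unitization F U))).prod f = 0 := by
    intro k h hh
    obtain ⟨y, hy⟩ := exists_inr_prod F U (τ k) h hh
    rw [hy]
    exact exists_poly F U hU y
  choose f hf0 hf using hpoly
  classical
  obtain ⟨A, instR, instA, gen, hcount, halg, hsep⟩ := main_alg F
    (fun k h => if hh : h ≠ [] then (f k h hh).natDegree else 0)
  refine ⟨A, instR, instA, algebraicAlg_of_isAlgebraic F A halg, ?_, ?_⟩
  · exact (rank_le_card F A).trans (Cardinal.mk_le_aleph0_iff.2 hcount)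
  · rintro ⟨φ, hφ⟩
    choose w hw using fun x => hφ (gen x)
    obtain ⟨k, hk⟩ := hτ w
    obtain ⟨h, h0, hh⟩ := hsep k
    apply hh (f k h h0) (hf0 k h h0) (by rw [dif_pos h0])
    have h1 := congrArg (Unitization.lift φ) (hf k h h0)
    rw [map_zero, ← aeval_algHom_apply, map_list_prod, List.map_map] at h1
    rw [← h1]
    congr 2
    refine congrArg List.prod ?_
    apply List.map_congr_left
    intro x _
    simp [hk, hw]

/-- No countable field admits a universal algebraic algebra of countable dimension. -/
theorem result (F : Type u) [Field F] [Countable F] :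
    ¬ ∃ (U : Type v) (_ : NonUnitalRing U) (_ : Module F U) (_ : IsScalarTower F U U)
        (_ : SMulCommClass F U U),
      AlgebraicAlg F U ∧ Module.rank F U ≤ Cardinal.aleph0 ∧
      ∀ (A : Type u) (_ : NonUnitalRing A) (_ : Module F A) (_ : IsScalarTower F A A)
        (_ : SMulCommClass F A A),
        AlgebraicAlg F A → Module.rank F A ≤ Cardinal.aleph0 →
          ∃ φ : U →ₙₐ[F] A, Function.Surjective φ := by
  rintro ⟨U, i1, i2, i3, i4, hU, hrank, huniv⟩
  obtain ⟨A, _, _, hA, hAr, hno⟩ := not_image F U hU hrank
  exact hno (huniv A _ _ _ _ hA hAr)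

end Pool.Agent.Results.MP_4977d9_al.NoUniversal
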